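import Pool.Agent.helper28.BQ.SpecK
import Pool.Agent.helper28.BQ.SpecN

/-!
# BQ, module `WX`: the exchange sequences
-/

open scoped Topology
open Filter

namespace BQ

/-- one place: `a = v da`, `b = v db`, `x`, `y` the values of `X`, `Y` -/
theorem WX_pos {a b x y C e : ℝ} (ha : a ≠ 0) (hC : 1 ≤ C) (hb : |b| ≤ C * |a|) (he : 0 < e)
    (heC : e * (4 * C) ≤ 1) (hx : |x - 1| < e) (hy : |y| < e) : 0 < a * (a * x ^ 2 + b * y ^ 2) := by
  have h4 : e ≤ 1 / 4 := by nlinarith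
  have hx1 : 3 / 4 ≤ x := by
    have := (abs_lt.1 hx).1
    linarith
  have hx2 : 9 / 16 ≤ x ^ 2 := by nlinarith
  have ha2 : 0 < a ^ 2 := by positivity
  have hy2 : y ^ 2 ≤ e ^ 2 := by
    rw [← sq_abs y]
    have := abs_nonneg y
    nlinarith
  have hab : |a * b| ≤ C * a ^ 2 := by
    rw [abs_mul, ← sq_abs a]
    have := abs_nonneg a
    nlinarith
  have h5 : -(C * a ^ 2) ≤ a * b := (abs_le.1 hab).1
  have h6 : C * e ^ 2 ≤ 1 / 16 := by
    have : C * e ≤ 1 / 4 := by linarith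
    nlinarith
  have h7 : -(a ^ 2 * (C * e ^ 2)) ≤ a * b * y ^ 2 := by
    have h8 : -(C * a ^ 2) * y ^ 2 ≤ a * b * y ^ 2 := mul_le_mul_of_nonneg_right h5 (sq_nonneg y)
    have h9 : C * a ^ 2 * y ^ 2 ≤ C * a ^ 2 * e ^ 2 :=
      mul_le_mul_of_nonneg_left hy2 (by positivity)
    nlinarith
  have h10 : a ^ 2 * (C * e ^ 2) ≤ a ^ 2 * (1 / 16) := mul_le_mul_of_nonneg_left h6 ha2.le
  have h11 : a ^ 2 * (9 / 16) ≤ a ^ 2 * x ^ 2 := mul_le_mul_of_nonneg_left hx2 ha2.le
  nlinarith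

/-- module `WX` -/
theorem WX (hTB : TB_stmt) : WX_stmt := by
  intro F _ _ hreal S da db hda hdb
  classical
  have hd := (hTB F hreal).2
  have hda' : ∀ v : F →+* ℝ, v da ≠ 0 := fun v => (map_ne_zero v).2 hda
  have hdb' : ∀ v : F →+* ℝ, v db ≠ 0 := fun v => (map_ne_zero v).2 hdb
  obtain ⟨C, hC1, hC⟩ : ∃ C : ℝ, 1 ≤ C ∧ ∀ v : F →+* ℝ, |v db| ≤ C * |v da| ∧
      |v da| ≤ C * |v db| := by
    refine ⟨1 + ∑ v : F →+* ℝ, (|v db| / |v da| + |v da| / |v db|), ?_, ?_⟩
    · have : 0 ≤ ∑ v : F →+* ℝ, (|v db| / |v da| + |v da| / |v db|) :=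
        Finset.sum_nonneg fun v _ => by positivity
      linarith
    · intro v
      have h1 : |v db| / |v da| + |v da| / |v db| ≤
          ∑ v : F →+* ℝ, (|v db| / |v da| + |v da| / |v db|) :=
        Finset.single_le_sum (f := fun v : F →+* ℝ => |v db| / |v da| + |v da| / |v db|)
          (fun v _ => by positivity) (Finset.mem_univ v)
      have ha := abs_pos.2 (hda' v)
      have hb := abs_pos.2 (hdb' v)
      have h2 : 0 ≤ |v db| / |v da| := by positivity
      have h3 : 0 ≤ |v da| / |v db| := by positivity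
      constructor
      · rw [← div_le_iff₀ ha]
        linarith
      · rw [← div_le_iff₀ hb]
        linarith
  have hC0 : 0 < C := by linarith
  have he : ∀ n : ℕ, 0 < 1 / (4 * C * (n + 1 : ℝ)) := fun n => by positivity
  have heC : ∀ n : ℕ, 1 / (4 * C * (n + 1 : ℝ)) * (4 * C) ≤ 1 := by
    intro n
    rw [div_mul_eq_mul_div, one_mul, div_le_one (by positivity)]
    have : (0 : ℝ) ≤ n := Nat.cast_nonneg n
    nlinarith
  have hlim : Tendsto (fun n : ℕ => 1 / (4 * C * (n + 1 : ℝ))) atTop (𝓝 0) := by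
    have h1 := (tendsto_one_div_add_atTop_nhds_zero_nat (𝕜 := ℝ)).const_mul (1 / (4 * C))
    rw [mul_zero] at h1
    refine h1.congr fun n => ?_
    rw [div_mul_div_comm, one_mul]
  choose X hX using fun n : ℕ =>
    hd (fun v => if v ∈ S then 0 else 1) (1 / (4 * C * (n + 1 : ℝ))) (he n)
  choose Y hY using fun n : ℕ =>
    hd (fun v => if v ∈ S then 1 else 0) (1 / (4 * C * (n + 1 : ℝ))) (he n)
  have lim : ∀ (Z : ℕ → F) (v : F →+* ℝ) (t : ℝ),
      (∀ n, |v (Z n) - t| < 1 / (4 * C * (n + 1 : ℝ))) → Tendsto (fun n => v (Z n)) atTop (𝓝 t) := by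
    intro Z v t h
    rw [tendsto_iff_dist_tendsto_zero]
    refine squeeze_zero (fun n => dist_nonneg) (fun n => ?_) hlim
    rw [Real.dist_eq]
    exact (h n).le
  refine ⟨X, Y, ?_, ?_, ?_, ?_⟩
  · intro v hv
    refine ⟨lim X v 1 fun n => ?_, lim Y v 0 fun n => ?_⟩
    · have := hX n v
      rwa [if_neg hv] at this
    · have := hY n v
      rwa [if_neg hv] at this
  · intro v hv
    refine ⟨lim X v 0 fun n => ?_, lim Y v 1 fun n => ?_⟩
    · have := hX n v
      rwa [if_pos hv] at this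
    · have := hY n v
      rwa [if_pos hv] at this
  · intro n v hv
    have h1 := hX n v
    have h2 := hY n v
    rw [if_neg hv] at h1 h2
    rw [sub_zero] at h2
    rw [map_add, map_mul, map_mul, map_pow, map_pow]
    exact WX_pos (hda' v) hC1 (hC v).1 (he n) (heC n) h1 h2
  · intro n v hv
    have h1 := hX n v
    have h2 := hY n v
    rw [if_pos hv] at h1 h2
    rw [sub_zero] at h1
    rw [map_add, map_mul, map_mul, map_pow, map_pow, add_comm]
    exact WX_pos (hdb' v) hC1 (hC v).2 (he n) (heC n) h2 h1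

end BQ
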